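import Pool.Agent.Q224.PiAdic.Upper3
import Pool.Agent.Q224.PiAdic.Phi

/-!
# The average `π`-adic complexity of finite sequences is `n / 2 + O(1)`

The definitions are in `Pool/Agent/Q224/PiAdic/Defs.lean` (there `p` stands for `π`):

* `IsOutput p b f g`: the infinite sequence `b` is the output of a shift register with connection
  element `g` and `p`-adic number `f / g`;
* `sizes p φ a`: the sizes `max(φ(f), φ(g))` of the registers whose first `n` outputs are `a`;
* `finComplexity p φ a`: the least of these sizes;
* `avgFin p φ N n`: the average `E_n^fin` of `finComplexity p φ a` over the `N ^ n` sequences `a`;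
* `phiImag` and `phiReal`: the size functions `φ` of the cases (i) and (ii).
-/

set_option autoImplicit false

namespace Pool.Agent.Results.MP_cc6759_lc.AveragePiAdicComplexity

open Q224.PiAdic

/-- In case (i), where the domain `R` has the `ℤ`-basis `1, p` with `p ^ 2 = -N`, and in case (ii),
where it has the `ℤ`-basis `1, p, …, p ^ (d - 1)` with `p ^ d = N`, the average `p`-adic complexity
of the finite sequences of length `n` is `n / 2 + O(1)`, with an implied constant independent of
`n`. (Also, the least size in the definition of the complexity is attained.) -/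
theorem result (N : ℕ) (hN : 2 ≤ N) (R : Type*) [CommRing R] [IsDomain R] (p : R) :
    (∀ B : Module.Basis (Fin 2) ℤ R, (∀ i, B i = p ^ (i : ℕ)) → p ^ 2 = -(N : R) →
      (∀ (n : ℕ) (a : Fin n → Fin N),
        IsLeast (sizes p (phiImag N B) a) (finComplexity p (phiImag N B) a)) ∧
      ∃ C : ℝ, ∀ n : ℕ, |avgFin p (phiImag N B) N n - (n : ℝ) / 2| ≤ C) ∧
    (∀ (d : ℕ) (B : Module.Basis (Fin d) ℤ R), (∀ i, B i = p ^ (i : ℕ)) → p ^ d = (N : R) →
      (∀ (n : ℕ) (a : Fin n → Fin N),
        IsLeast (sizes p (phiReal N B) a) (finComplexity p (phiReal N B) a)) ∧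
      ∃ C : ℝ, ∀ n : ℕ, |avgFin p (phiReal N B) N n - (n : ℝ) / 2| ≤ C) := by
  constructor
  · intro B hB hp
    have h : Setup N 2 B p := ⟨hN, by norm_num, hB, Or.inr hp⟩
    exact ⟨fun n a => isLeast_sizes h (phiImag_ge hN B) a,
      avg h (phiImag_ge hN B) (phiImag_le hN B)⟩
  · intro d B hB hp
    have hd : 1 ≤ d := by
      rcases Nat.eq_zero_or_pos d with rfl | hd
      · exfalso
        have h1 : (1 : R) = 0 := by
          rw [← B.sum_repr 1]
          simp
        exact one_ne_zero h1
      · exact hd
    have h : Setup N d B p := ⟨hN, hd, hB, Or.inl hp⟩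
    exact ⟨fun n a => isLeast_sizes h (phiReal_ge hN hd B) a,
      avg h (phiReal_ge hN hd B) (phiReal_le hN B)⟩

end Pool.Agent.Results.MP_cc6759_lc.AveragePiAdicComplexity
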